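import Pool.Agent.Lib.AB65.Main

set_option autoImplicit false

open Metric Filter Topology Laplacian
open Pool.Agent.Lib.AB65

/-- For every `k` there is a bounded simply connected planar domain with regular real-analytic
boundary on which the distance to the boundary has exactly one local maximum point while the
torsion function has at least `k` local maxima. -/
theorem Pool.Agent.Results.MP_ab96c2_an.Unbounded.result (k : ℕ) :
    ∃ (Ω U : Set ℂ) (v : ℂ → ℝ), IsOpen Ω ∧ Bornology.IsBounded Ω ∧ SimplyConnectedSpace Ω ∧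
      AnalyticOnNhd ℝ v Set.univ ∧ (∀ z, Δ v z = -2) ∧
      IsOpen U ∧ closure Ω ⊆ U ∧ Ω = {z ∈ U | 0 < v z} ∧
      (∀ z ∈ frontier Ω, v z = 0 ∧ fderiv ℝ v z ≠ 0) ∧
      (∃! z, z ∈ Ω ∧ IsLocalMax (fun w => infDist w (frontier Ω)) z) ∧
      ∃ S : Finset ℂ, S.card = k ∧ ∀ z ∈ S, z ∈ Ω ∧ IsLocalMax v z ∧ fderiv ℝ v z = 0 := by
  classical
  obtain ⟨t, h, hP, hk⟩ := exists_t k
  have hc := h.contractible
  have hp := Real.pi_pos
  have hj : ∀ j : Fin k, ∃ z ∈ Om t, |z.re - 2 * Real.pi * (j : ℕ)| < Real.pi / 2 ∧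
      IsLocalMax (v t) z := fun j => h.exists_max j (lt_of_le_of_lt (by
    have := h.t0
    have : ((j : ℕ) : ℝ) ≤ k := Nat.cast_le.2 j.2.le
    gcongr) hk)
  choose f f1 f2 f3 using hj
  have hf : Function.Injective f := fun i j e => by
    have h1 := abs_lt.1 (f2 i)
    have h2 := abs_lt.1 (f2 j)
    rw [e] at h1
    have h3 : ((i : ℕ) : ℝ) < (j : ℕ) + 1 := by nlinarith [h1.1, h2.2]
    have h4 : ((j : ℕ) : ℝ) < (i : ℕ) + 1 := by nlinarith [h1.2, h2.1]
    norm_cast at h3 h4
    exact Fin.ext (by omega)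
  refine ⟨Om t, {z | |z.im| < 2}, v t, isOpen_Om t, h.bounded, inferInstance,
    contDiff_omega_iff_analyticOnNhd.1 (v_smooth t), v_lap t,
    isOpen_lt Complex.continuous_im.abs continuous_const,
    fun z hz => (h.closure_sub hz).1.trans_lt (by norm_num), rfl,
    fun z hz => ⟨(h.front hz).2, fun e => ?_⟩,
    unique_max h hP (Set.nonempty_coe_sort.1 inferInstance),
    Finset.univ.image f, by simp [Finset.card_image_of_injective _ hf], fun z hz => ?_⟩
  · have h1 := grad_ne h hP (h.front hz).1 (h.front hz).2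
    rw [(v_deriv t z).fderiv] at e
    have h2 : A t z.re z.im = 0 := by simpa using DFunLike.congr_fun e 1
    have h3 : B t z.re z.im = 0 := by simpa using DFunLike.congr_fun e Complex.I
    simp [h2, h3] at h1
  · obtain ⟨j, -, rfl⟩ := Finset.mem_image.1 hz
    exact ⟨f1 j, f3 j, (f3 j).fderiv_eq_zero⟩
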